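import Pool.Agent.N616.HD.Main

/-!
# The Weisfeiler-Leman dimension of the equivalence of Hadamard matrices is logarithmic

The isomorphism of the graphs of Hadamard matrices (which is the same as the equivalence of the
matrices) is decided in time `n ^ O(log n)`, and no polynomial-time algorithm is known. For all `m`
there are inequivalent Hadamard matrices of order `2 ^ (36 * m + 4)` that are not distinguished by
the `k`-dimensional Weisfeiler-Leman method, by the `k`-dimensional invertible-map test over all
fields of characteristic other than two, by the polynomial calculus of degree `k` over such fields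
and by the Positivstellensatz calculus of degree `k`, if `144 * k ≤ m`. Conversely the graphs of
all Hadamard matrices of order `n` are identified by the method in dimension `5 log n + O(1)`.
-/

set_option autoImplicit false

namespace Pool.Agent.Results.MP_128e7d_lc.HadamardWLDimension

open Pool.Agent.N616.HD Pool.Agent.W185.SRG
open Pool.Agent.TH658.Sos (IMEquiv PCRefutes PosRefutes)

theorem result :
    (∀ (n : ℕ) (H H' : Matrix (Fin n) (Fin n) ℤ), H.IsHadamard → H'.IsHadamard →
      (Nonempty (hadGraph H ≃g hadGraph H') ↔ HadEquiv H H')) ∧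
    (∀ k m : ℕ, 1 ≤ k → 144 * k ≤ m →
      ∃ H H' : Matrix (Fin (2 ^ (36 * m + 4))) (Fin (2 ^ (36 * m + 4))) ℤ,
        H.IsHadamard ∧ H'.IsHadamard ∧ ¬ HadEquiv H H' ∧
        WLEquivalent k (hadGraph H) (hadGraph H') ∧
        IMEquiv 2 k (hadGraph H) (hadGraph H') ∧
        (∀ (K : Type) [Field K], (2 : K) ≠ 0 → ¬ PCRefutes K (hadGraph H) (hadGraph H') k) ∧
        ¬ PosRefutes (hadGraph H) (hadGraph H') k) ∧
    (∀ (n : ℕ) (H : Matrix (Fin n) (Fin n) ℤ), 0 < n → H.IsHadamard →
      ∀ (W : Type) [Fintype W] (G : SimpleGraph W) (k : ℕ), 5 * Nat.clog 2 n + 12 ≤ k →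
        WLEquivalent k (hadGraph H) G → Nonempty (hadGraph H ≃g G)) :=
  ⟨fun _ _ _ hH hH' => iso_iff_equiv hH hH', fun k m hk hm => lower k m hk hm _ rfl,
    fun _ _ hn hH _ _ G _ hk h => upper hn hH G hk h⟩

end Pool.Agent.Results.MP_128e7d_lc.HadamardWLDimension
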