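import Pool.Agent.N585.GI.Ex

/-!
# Graph isomorphism is not NP-complete under order-free logical reductions

`Fml σ k n` (file `Pool/Agent/N585/GI/Logic.lean`) is the infinitary logic with `k` variables over
the vocabulary `σ` with isomorphism quantifiers: the formula `iso` interprets two graphs in the
structure, each one with up to `k` sorts of vertices, whose representatives are `d`-tuples, with a
definable domain, a definable equality, a definable adjacency, and with parameters, and it says that
these two graphs are isomorphic. Conjunctions may be infinite and the quantifiers may be nested, so a
sentence of this logic is a non-uniform Turing reduction to graph isomorphism by (order-free)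
logical interpretations. SATISFIABILITY is NP-complete even under quantifier-free many-one
interpretations without order (Lovász and Gács 1977, Dahlhaus 1983).

The theorem: satisfiability of CNF formulas is not definable in this logic (for each sentence there
is a finite CNF structure, which encodes a pigeonhole formula, on which the sentence is wrong). So
for order-free logical reductions the answer to Q2 is negative, and this holds unconditionally. The
reason is that isomorphism quantifiers express exactly the polynomial identities between
cardinalities: on the sets with `c` colours, a class (given by a set `X` of vectors of
cardinalities) is definable in this logic, with any finite number of variables, if and only if it is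
definable by a finitary sentence, and if and only if `X` is a Boolean combination of sets of zeros of
polynomials with integer coefficients. For example, no such reduction to graph isomorphism decides
whether a set has an even number of elements, or whether there are at most as many red as green
elements.

Proof. The number of extensions of a tuple to a tuple of a given type is a polynomial in the
cardinalities. Hence the number of embeddings of a fixed finite graph `H` into an
interpreted graph is, for parameters of a fixed type, a quotient of polynomials; in order to handle
definable equality, each representative of a vertex gets the inverse of the number of the
representatives as its weight. Two finite graphs `G`, `G'` are isomorphic if and only if all `H` (for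
example `G` and `G'`) have the same number of embeddings into both. So isomorphism is an
infinite system of polynomial equations, which by the Hilbert basis theorem is equivalent to a
finite one. For a bounded number of variables there are only finitely many pairs of interpreted
graphs. Conversely, both sides of a polynomial equation are numbers of vertices of interpreted graphs
without edges.

The method works for all families of structures in which the numbers of extensions of tuples are
given by a noetherian ring (`finDet_holds` in `Pool/Agent/N585/GI/Unif.lean`), for example for vector
spaces over a finite field (`vec_main` in `Pool/Agent/N585/GI/Vec.lean`), and for quantifier-free
reductions with a linear order (`ord_main` in `Pool/Agent/N585/GI/Ord.lean`).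
-/

set_option autoImplicit false

namespace Pool.Agent.Results.MP_128e7d_lc.IsomorphismQuantifiers

open Pool.Agent.N585.GI

/-- **The power of isomorphism quantifiers.** -/
theorem result :
    -- the exact power on coloured sets
    (∀ (c : ℕ) (X : Set (Fin c → ℕ)),
      ((∃ (k : ℕ) (φ : Fml (Col c) k 0), ∀ (x : Fin c → ℕ) (a : Fin 0 → CSet x),
        x ∈ X ↔ φ.Holds (colStr x) a) ↔ Constructible X) ∧
      ((∃ (k : ℕ) (φ : Fml (Col c) k 0), φ.Finitary ∧ ∀ (x : Fin c → ℕ) (a : Fin 0 → CSet x),
        x ∈ X ↔ φ.Holds (colStr x) a) ↔ Constructible X)) ∧
    ¬ Constructible {x : Fin 1 → ℕ | Even (x 0)} ∧
    ¬ Constructible {x : Fin 2 → ℕ | x 0 ≤ x 1} ∧
    -- satisfiability is not reducible to graph isomorphism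
    (∀ (k : ℕ) (φ : Fml Cnf k 0), ∃ (U : Type) (_ : Finite U) (I : Str Cnf U),
      ¬ (Sat I ↔ φ.Holds I Fin.elim0)) :=
  ⟨fun _ X => cset_main X, not_constructible_even, not_constructible_le, sat_main⟩

end Pool.Agent.Results.MP_128e7d_lc.IsomorphismQuantifiers
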