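import Pool.Agent.N579.WL.Robust
import Pool.Agent.N579.WL.Lower

/-!
# Random graphs and the Weisfeiler-Leman method: exact order of failure probability and robustness

The `k`-dimensional Weisfeiler-Leman method (`k`-WL) decides isomorphism with a graph `G` correctly
in polynomial time (for fixed `k`) if it identifies `G`. The theorem treats noisy (smoothed) graphs:
for each pair of vertices, the conditional probability, given all other pairs, that it is an edge
lies in `[δ, 1 - δ]`. For example, an arbitrary fixed graph each of whose pairs is changed
independently with probability `δ`, or the uniformly random graph (`δ = 1 / 2`), or a Gibbs measure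
with bounded interactions.

With probability at least `1 - 2 ^ (- c k n)`, `k`-WL identifies all graphs which an adversary can get
from the random graph by changing at most `c k n` pairs. Both quantities are optimal up to the
constant: every graph (if `n` is at least a constant times `k`) differs in at most `C k n` pairs from
a graph that `k`-WL does not identify, and the random graph is not identified by `k`-WL with
probability at least `δ ^ (C k n)`. The dimension is any `k ≥ 2` if the pairs are independent, and
`k ≥ k0(δ)` in general.

Proof. If `k`-WL does not identify `H` then for every set of `(k - 2) / 2` vertices the coarsest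
equitable partition in which these vertices are singletons has defect (number of vertices minus
number of classes) at least `k / 4`. Choose disjoint pairs of vertices in common classes, at least
half the defect many. For each pair and each class the numbers of neighbours of the two vertices in
the class have the same parity. For an order of the classes, the conditions for pairs of vertices
below the class involve disjoint sets of pairs; so a change of `s` pairs violates at most `s` of
them, and in the random graph they are violated independently with probability at least `δ`. The
number of the conditions beats the number of the partitions if there are sufficiently many classes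
or few moved points. If there are few classes then there are few different degrees, and this is
ruled out (for independent pairs) by the small probability of each value of a sum of independent
bits. For the lower bounds, two non-isomorphic tournaments of linear size that `k`-WL does not
distinguish (from random linear systems over the field with three elements, constructed in the
starting library for `MP_128e7d_lc.IRInvertibleMapsTournaments`) are encoded by graphs and planted
together with a clique of marker vertices.
-/

set_option autoImplicit false

namespace Pool.Agent.Results.MP_128e7d_lc.RobustWLIdentification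

open Pool.Agent.N579.WL

theorem result (δ : ℝ) (hδ0 : 0 < δ) (hδ : δ ≤ 1 / 2) :
    ∃ c : ℝ, 0 < c ∧ ∃ k0 n0 : ℕ, ∀ n k : ℕ, n0 ≤ n → 2 ≤ k → k ≤ n →
      ∀ W : SimpleGraph (Fin n) → ℝ, Law δ W →
        (k0 ≤ k ∨ ∃ p : Sym2 (Fin n) → ℝ, (∀ e, ¬ e.IsDiag → δ ≤ p e ∧ p e ≤ 1 - δ) ∧
          W = indepLaw p) →
        prob W {G | ∃ H, (dist G H : ℝ) ≤ c * k * n ∧ ¬ IdentifiedBy k H} ≤
          (2 : ℝ) ^ (-(c * k * n)) ∧
        (2 ^ 65 * k ≤ n →
          δ ^ (2 ^ 65 * k * n) ≤ prob W {G | ¬ IdentifiedBy k G} ∧
          ∀ G : SimpleGraph (Fin n), ∃ H, dist G H ≤ 2 ^ 65 * k * n ∧ ¬ IdentifiedBy k H) := by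
  obtain ⟨c1, hc1, k0, h1⟩ := robust_law δ hδ0 hδ
  obtain ⟨c2, hc2, n0, h2⟩ := robust_indep δ hδ0 hδ
  refine ⟨min c1 c2, lt_min hc1 hc2, k0, n0, fun n k hn hk hkn W hW hcase => ⟨?_, ?_⟩⟩
  · have hkn0 : (0 : ℝ) ≤ k * n := by positivity
    have key : ∀ c : ℝ, min c1 c2 ≤ c →
        prob W {G | ∃ H, (dist G H : ℝ) ≤ c * k * n ∧ ¬ IdentifiedBy k H} ≤
          (2 : ℝ) ^ (-(c * k * n)) →
        prob W {G | ∃ H, (dist G H : ℝ) ≤ min c1 c2 * k * n ∧ ¬ IdentifiedBy k H} ≤
          (2 : ℝ) ^ (-(min c1 c2 * k * n)) := by
      intro c hc h
      have h3 : min c1 c2 * k * n ≤ c * k * n := by
        rw [mul_assoc, mul_assoc]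
        exact mul_le_mul_of_nonneg_right hc hkn0
      refine (prob_mono hW.nonneg ?_).trans (h.trans
        (Real.rpow_le_rpow_of_exponent_le (by norm_num) (by linarith)))
      rintro G ⟨H, h4, h5⟩
      exact ⟨H, h4.trans h3, h5⟩
    rcases hcase with hk0 | ⟨p, hp, rfl⟩
    · exact key c1 (min_le_left _ _) (h1 n k hk0 hkn W hW)
    · exact key c2 (min_le_right _ _) (h2 n k hn hk hkn p _
        (indepLaw_indep fun e he => ⟨by linarith [(hp e he).1], by linarith [(hp e he).2]⟩) hp)
  · intro hn'
    exact ⟨hW.lower hδ0.le (by linarith) k (by omega) hn',
      fun G => near_not n k (by omega) hn' G⟩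

end Pool.Agent.Results.MP_128e7d_lc.RobustWLIdentification
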