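import Pool.Agent.N579.WA.Transfer

/-!
# Graph isomorphism: the worst case and the average case with a tiny failure density

Boolean circuits that decide isomorphism of two graphs given by their adjacency matrices. The theorem
compares circuits that are correct on all pairs of graphs with `m` vertices with circuits that are
correct on all pairs of graphs with `n` vertices outside an exceptional set of graphs of density
`2 ^ (- Theta(m n))`.

(1) Upper bound: from circuits with `s` gates for `N` vertices, `N ≥ 101 m + 2 ^ 15`, which may be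
wrong on a set of graphs of density `2 ^ (-(m N + 2))` (for example, correct circuits), we get
circuits with `n ^ 2 s + O(n ^ 9)` gates for `n` vertices, `n ≥ m ^ 4`, which never accept
non-isomorphic graphs and accept all isomorphic pairs outside a set of density `2 ^ (- m n / 2000)`.
(2) Lower bound: from circuits which are correct outside a set of density `2 ^ (-(m N + 2))` we get
circuits of the same size for `m` vertices which are always correct.
(3) Hence for each `δ > 0` graph isomorphism has polynomial size circuits (is in P/poly) if and only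
if there are polynomial size circuits which are correct outside a set of density `2 ^ (-n ^ (1 + δ))`.
(4) Unconditionally there are circuits with `n ^ 11` gates which never accept non-isomorphic graphs
and accept all isomorphic pairs outside a set of density `2 ^ (- n log n / (4000 log log n))`.

(The exceptional sets are sets of graphs and not of pairs of graphs, since the pairs of isomorphic
graphs have density `≤ n! / 2 ^ (n choose 2)` among all pairs.)

Proof of (1). For a vertex `v` of the graph `G` consider the coarsest equitable partition in which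
`v` is a singleton. Outside a set of density `2 ^ (- m n / 1000)` there is a `v` for which all but at
most `m` vertices are singletons of this partition (`good_prob`). Indeed an equitable partition with
`n - d` classes and `d ≥ m` gives about `d / 2` disjoint pairs of vertices in common classes; the
parities of the numbers of neighbours in the classes are equal for both; and if there are more than
`16 log n` classes then these conditions beat the number of the partitions. If there are at most
`16 log n` classes for each `v`, then for each `v` the numbers of common neighbours with `v` take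
at most `16 log n` values on all vertices; for given rows of `m` suitable vertices `v` and a random row `x`
the vector of the `m` codegrees of `x` has small probability of every value, by a Halasz type
inequality for vectors (`halasz`), and the suitable vertices exist by a greedy choice. The circuit
individualizes a vertex `v` of `G` and a vertex `w` of `H`, refines colours, and decides by the given
circuit whether the at most `m` remaining vertices can be mapped: since the partition is equitable,
the remaining condition is isomorphism of two graphs with `m` vertices and at most `m` colours. The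
sizes of all circuits are bounded by explicit constructions (`Circ`, `Build`).

Proof of (2) and of the step in (1) from colours to graphs. Plant the coloured graph `A` in a graph
`Q` with `N - m` vertices: vertex `a` of `A` is joined to the vertex number `l` of `Q` if its colour
bit `l` is one. For all but a quarter of all `Q`, any two rows of `Q` differ in more than `N / 20`
places, all degrees are large, and no two disjoint sets of `N / 100` vertices induce isomorphic
graphs; then each isomorphism of two planted graphs is the identity on `Q` (`fix_of_rigid`). The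
planted graphs of different `Q` are different, so some rigid `Q` has no planted graph in the
exceptional set, and its bits can be fixed in the circuit (`exists_col`).
-/

set_option autoImplicit false

namespace Pool.Agent.Results.MP_128e7d_lc.WorstCaseAverageCase

open Pool.Agent.N579.WA

/-- The Boolean function `f` of the input bits `x i`, `i : I`, is computed by a Boolean circuit with
at most `s` gates. `g j` is the function computed at the gate `j`: a constant, an input bit or the
NAND of two earlier gates. -/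
def HasCircuit {I : Type} (s : ℕ) (f : (I → Bool) → Bool) : Prop :=
  ∃ g : ℕ → (I → Bool) → Bool, (∀ j < s, (∃ b : Bool, g j = fun _ => b) ∨
    (∃ i : I, g j = fun x => x i) ∨
    ∃ a b : ℕ, a < j ∧ b < j ∧ g j = fun x => !(g a x && g b x)) ∧ ∃ j < s, g j = f

open Classical in
/-- The input bits: the adjacency matrices of `G` and of `H`. -/
noncomputable def code {n : ℕ} (G H : SimpleGraph (Fin n)) : Bool × Fin n × Fin n → Bool :=
  fun e => if e.1 = true then decide (G.Adj e.2.1 e.2.2) else decide (H.Adj e.2.1 e.2.2)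

/-- Some circuit with at most `s` gates decides isomorphism of all pairs of graphs with `n`
vertices. -/
def WorstCase (n s : ℕ) : Prop :=
  ∃ f : (Bool × Fin n × Fin n → Bool) → Bool, HasCircuit s f ∧
    ∀ G H : SimpleGraph (Fin n), f (code G H) = true ↔ Nonempty (G ≃g H)

/-- Some circuit with at most `s` gates decides isomorphism of all pairs of graphs with `n`
vertices neither of which is in an exceptional set of density at most `ε`. -/
def AverageCase (n s : ℕ) (ε : ℝ) : Prop :=
  ∃ f : (Bool × Fin n × Fin n → Bool) → Bool, HasCircuit s f ∧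
    ∃ E : Set (SimpleGraph (Fin n)), (E.ncard : ℝ) ≤ ε * 2 ^ n.choose 2 ∧
      ∀ G H : SimpleGraph (Fin n), G ∉ E → H ∉ E → (f (code G H) = true ↔ Nonempty (G ≃g H))

/-- Some circuit with at most `s` gates never accepts non-isomorphic graphs with `n` vertices, and
accepts all pairs of isomorphic graphs outside an exceptional set of density at most `ε`. -/
def OneSided (n s : ℕ) (ε : ℝ) : Prop :=
  ∃ f : (Bool × Fin n × Fin n → Bool) → Bool, HasCircuit s f ∧
    (∀ G H : SimpleGraph (Fin n), f (code G H) = true → Nonempty (G ≃g H)) ∧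
    ∃ E : Set (SimpleGraph (Fin n)), (E.ncard : ℝ) ≤ ε * 2 ^ n.choose 2 ∧
      ∀ G H : SimpleGraph (Fin n), G ∉ E → Nonempty (G ≃g H) → f (code G H) = true

theorem code_eq {n : ℕ} (G H : SimpleGraph (Fin n)) : code G H = cod G H := by
  funext e
  unfold code cod bit
  split_ifs <;> congr

theorem has_iff {I : Type} {s : ℕ} {f : (I → Bool) → Bool} : HasCircuit s f ↔ Computes s f :=
  Iff.rfl

/-- density to number -/
theorem card_of_density {n m : ℕ} {E : Set (SimpleGraph (Fin (m + n)))} {t : ℕ} {ε : ℝ}
    (hE : (E.ncard : ℝ) ≤ ε * 2 ^ (m + n).choose 2) (hε : ε ≤ (2 : ℝ) ^ (-(t : ℝ)))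
    (ht : m * (m + n) + 2 ≤ t) : 4 * E.ncard ≤ 2 ^ n.choose 2 := by
  have h1 : (m + n).choose 2 ≤ n.choose 2 + m * (m + n) := by
    have h2 : ∀ k : ℕ, 2 * (k.choose 2) + k = k * k := by
      intro k
      rw [Nat.choose_two_right, Nat.two_mul_div_two_of_even (Nat.even_mul_pred_self k)]
      rcases k with _ | k
      · rfl
      · rw [Nat.add_sub_cancel]; ring
    have h3 := h2 (m + n)
    have h4 := h2 n
    nlinarith [Nat.zero_le (m * m), Nat.zero_le m]
  have h2 : (E.ncard : ℝ) * 2 ^ t ≤ 2 ^ (m + n).choose 2 := by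
    have h3 : (E.ncard : ℝ) ≤ (2 : ℝ) ^ (-(t : ℝ)) * 2 ^ (m + n).choose 2 :=
      hE.trans (mul_le_mul_of_nonneg_right hε (by positivity))
    rw [Real.rpow_neg (by norm_num), Real.rpow_natCast] at h3
    have h4 : (0 : ℝ) < 2 ^ t := by positivity
    calc (E.ncard : ℝ) * 2 ^ t ≤ ((2 ^ t)⁻¹ * 2 ^ (m + n).choose 2) * 2 ^ t :=
          mul_le_mul_of_nonneg_right h3 h4.le
      _ = 2 ^ (m + n).choose 2 := by field_simp
  have h3 : E.ncard * 2 ^ t ≤ 2 ^ (m + n).choose 2 := by exact_mod_cast h2
  have h4 : 4 * E.ncard * 2 ^ (m * (m + n)) ≤ 2 ^ n.choose 2 * 2 ^ (m * (m + n)) := by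
    calc 4 * E.ncard * 2 ^ (m * (m + n)) = E.ncard * 2 ^ (m * (m + n) + 2) := by rw [pow_add]; ring
      _ ≤ E.ncard * 2 ^ t := Nat.mul_le_mul_left _ (Nat.pow_le_pow_right (by norm_num) ht)
      _ ≤ 2 ^ (m + n).choose 2 := h3
      _ ≤ 2 ^ (n.choose 2 + m * (m + n)) := Nat.pow_le_pow_right (by norm_num) h1
      _ = 2 ^ n.choose 2 * 2 ^ (m * (m + n)) := pow_add _ _ _
  exact Nat.le_of_mul_le_mul_right h4 (by positivity)

/-- from average case to coloured worst case -/
theorem col_of_average {m N s : ℕ} (hN : 101 * m + 2 ^ 15 ≤ N) {ε : ℝ}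
    (hε : ε ≤ (2 : ℝ) ^ (-((m : ℝ) * N + 2))) (h : AverageCase N s ε) :
    ∃ g : Fn (Jc m), Computes s g ∧ SolvesCol g := by
  obtain ⟨N', rfl⟩ : ∃ N', N = m + N' := ⟨N - m, by omega⟩
  obtain ⟨f, hf, E, hE, hfE⟩ := h
  have h1 : 4 * E.ncard ≤ 2 ^ N'.choose 2 := by
    refine card_of_density (t := m * (m + N') + 2) hE (hε.trans (le_of_eq ?_)) le_rfl
    push_cast
    rfl
  refine exists_col (by omega) (by omega) (has_iff.1 hf) h1 fun G H hG hH => ?_
  rw [← code_eq]
  exact hfE G H hG hH

/-- from coloured worst case to average case -/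
theorem oneSided_of_col {n m s : ℕ} (hn : 2 ^ 100 ≤ n) (hm : m ^ 4 ≤ n) {g : Fn (Jc m)}
    (hg : Computes s g) (hsol : SolvesCol g) :
    OneSided n (n ^ 2 * s + 500 * (2 * n + 1) ^ 9) ((2 : ℝ) ^ (-((m : ℝ) * n / 2000))) := by
  have hmn : m ≤ n := by
    rcases Nat.eq_zero_or_pos m with rfl | h0
    · omega
    · exact (Nat.le_self_pow (by norm_num) m).trans hm
  obtain ⟨f, hf, h1, h2⟩ := exists_circuit hmn hg hsol
  refine ⟨f, hf, fun G H h => h1 G H (by rwa [← code_eq]), {G | ¬ GoodV m G}, ?_,
    fun G H hG h => ?_⟩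
  · have h3 := good_prob hn hm
    set c := {G : SimpleGraph (Fin n) | ¬ GoodV m G}.ncard with hc
    have h4 : (c : ℝ) * 2 ^ (m * n / 1000) ≤ 2 ^ n.choose 2 := by exact_mod_cast h3
    have h5 : (2 : ℝ) ^ ((m : ℝ) * n / 2000) ≤ 2 ^ (m * n / 1000) := by
      rw [← Real.rpow_natCast 2 (m * n / 1000)]
      refine Real.rpow_le_rpow_of_exponent_le (by norm_num) ?_
      rcases Nat.eq_zero_or_pos m with rfl | h0
      · simp
      · have h6 : m * n < 1000 * (m * n / 1000 + 1) := by
          have := Nat.lt_mul_div_succ (m * n) (show 0 < 1000 by norm_num)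
          simpa using this
        have h7 : ((m * n : ℕ) : ℝ) < 1000 * (((m * n / 1000 : ℕ) : ℝ) + 1) := by exact_mod_cast h6
        have h8 : (2000 : ℕ) ≤ m * n := by
          have : 2000 ≤ n := le_trans (by norm_num) hn
          nlinarith
        have h9 : (2000 : ℝ) ≤ ((m * n : ℕ) : ℝ) := by exact_mod_cast h8
        push_cast at h7 h9 ⊢
        linarith
    rw [Real.rpow_neg (by norm_num)]
    have h6 : (0 : ℝ) < (2 : ℝ) ^ ((m : ℝ) * n / 2000) := by positivity
    rw [inv_mul_eq_div, le_div_iff₀ h6]
    exact (mul_le_mul_of_nonneg_left h5 (by positivity)).trans h4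
  · rw [code_eq]
    exact h2 G H (not_not.1 hG) h

theorem part_one {n m N s : ℕ} (hn : 2 ^ 100 ≤ n) (hm : m ^ 4 ≤ n) (hN : 101 * m + 2 ^ 15 ≤ N)
    (h : AverageCase N s ((2 : ℝ) ^ (-((m : ℝ) * N + 2)))) :
    OneSided n (n ^ 2 * s + 500 * (2 * n + 1) ^ 9) ((2 : ℝ) ^ (-((m : ℝ) * n / 2000))) := by
  obtain ⟨g, hg, hsol⟩ := col_of_average hN le_rfl h
  exact oneSided_of_col hn hm hg hsol

theorem part_two {m N s : ℕ} (hN : 101 * m + 2 ^ 15 ≤ N) {ε : ℝ}
    (hε : ε ≤ (2 : ℝ) ^ (-((m : ℝ) * N + 2))) (h : AverageCase N s ε) : WorstCase m s := by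
  obtain ⟨g, hg, hsol⟩ := col_of_average hN hε h
  obtain ⟨f, hf, h1⟩ := plain_of_col hg hsol
  exact ⟨f, hf, fun G H => by rw [code_eq]; exact h1 G H⟩

theorem WorstCase.mono {n s t : ℕ} (h : WorstCase n s) (hst : s ≤ t) : WorstCase n t := by
  obtain ⟨f, hf, h1⟩ := h
  exact ⟨f, Computes.mono hf hst, h1⟩

theorem exists_worst (m : ℕ) : ∃ s, WorstCase m s := by
  obtain ⟨g, hg, hsol⟩ := exists_col_brute m
  obtain ⟨f, hf, h1⟩ := plain_of_col hg hsol
  exact ⟨_, f, hf, fun G H => by rw [code_eq]; exact h1 G H⟩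

theorem part_three (δ : ℝ) (hδ : 0 < δ) :
    (∃ c : ℕ, ∀ n : ℕ, WorstCase n (n ^ c + c)) ↔
      ∃ c : ℕ, ∀ n : ℕ, AverageCase n (n ^ c + c) ((2 : ℝ) ^ (-(n : ℝ) ^ (1 + δ))) := by
  constructor
  · rintro ⟨c, hc⟩
    refine ⟨c, fun n => ?_⟩
    obtain ⟨f, hf, h1⟩ := hc n
    refine ⟨f, hf, ∅, ?_, fun G H _ _ => h1 G H⟩
    rw [Set.ncard_empty, Nat.cast_zero]
    positivity
  · rintro ⟨c, hc⟩
    obtain ⟨a, ha⟩ := exists_nat_ge (2 / δ)
    have ha2 : 2 ≤ a * δ := by rwa [div_le_iff₀ hδ] at ha
    choose S hS using exists_worst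
    let C := (a + 2) * c + c + ∑ m ∈ Finset.range (2 ^ 15), S m
    refine ⟨C, fun m => ?_⟩
    by_cases hm : m < 2 ^ 15
    · refine (hS m).mono ?_
      have h1 : S m ≤ ∑ m ∈ Finset.range (2 ^ 15), S m :=
        Finset.single_le_sum (f := S) (fun _ _ => Nat.zero_le _) (Finset.mem_range.2 hm)
      omega
    · push Not at hm
      have hm1 : 1 ≤ m := by omega
      have h1 : 101 * m + 2 ^ 15 ≤ m ^ (a + 2) := by
        have h2 : m ^ 2 ≤ m ^ (a + 2) := Nat.pow_le_pow_right hm1 (by omega)
        nlinarith
      refine (part_two h1 ?_ (hc (m ^ (a + 2)))).mono ?_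
      · refine Real.rpow_le_rpow_of_exponent_le (by norm_num) (neg_le_neg ?_)
        have hmR : (1 : ℝ) ≤ m := by exact_mod_cast hm1
        have hmR2 : (32768 : ℝ) ≤ m := by
          have : (32768 : ℕ) ≤ m := by simpa using hm
          exact_mod_cast this
        set N : ℝ := ((m ^ (a + 2) : ℕ) : ℝ) with hNdef
        have hN1 : (m : ℝ) ^ 2 ≤ N := by
          rw [hNdef]
          push_cast
          exact pow_le_pow_right₀ hmR (by omega)
        have hN0 : (0 : ℝ) < N := by positivity
        rw [Real.rpow_add hN0, Real.rpow_one]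
        have h3 : (m : ℝ) ^ (2 : ℝ) ≤ N ^ δ := by
          rw [hNdef]
          push_cast
          rw [← Real.rpow_natCast (m : ℝ) (a + 2), ← Real.rpow_mul (by positivity)]
          refine Real.rpow_le_rpow_of_exponent_le hmR ?_
          push_cast
          nlinarith
        rw [Real.rpow_two] at h3
        have h4 : (m : ℝ) + 1 ≤ N ^ δ := by nlinarith
        have h5 : (2 : ℝ) ≤ N := by nlinarith
        have h6 : N * (m + 1) ≤ N * N ^ δ := mul_le_mul_of_nonneg_left h4 hN0.le
        linarith
      · show (m ^ (a + 2)) ^ c + c ≤ m ^ C + C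
        rw [← pow_mul]
        have h2 : m ^ ((a + 2) * c) ≤ m ^ C := Nat.pow_le_pow_right hm1 (by omega)
        omega

theorem part_four {n : ℕ} (hn : 2 ^ 100 ≤ n) {m : ℕ} (hm : m ^ m ≤ n) (hm4 : m ^ 4 ≤ n) :
    OneSided n (n ^ 11) ((2 : ℝ) ^ (-((m : ℝ) * n / 2000))) := by
  obtain ⟨g, hg, hsol⟩ := exists_col_brute m
  obtain ⟨f, hf, h1, E, hE, h2⟩ := oneSided_of_col hn hm4 hg hsol
  refine ⟨f, Computes.mono hf ?_, h1, E, hE, h2⟩
  have e1 : m.factorial ≤ n := (Nat.factorial_le_pow m).trans hm
  have e2 : m ^ 2 ≤ n := by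
    rcases Nat.eq_zero_or_pos m with rfl | h0
    · exact Nat.zero_le _
    · exact (Nat.pow_le_pow_right h0 (by norm_num)).trans hm4
  have hn0 : 1 ≤ n := le_trans (by norm_num) hn
  have e3 : m.factorial * (32 * m ^ 2 + 8) + 1 ≤ 41 * n ^ 2 := by
    have h3 : 32 * m ^ 2 + 8 ≤ 40 * n := by omega
    have h4 : m.factorial * (32 * m ^ 2 + 8) ≤ n * (40 * n) := Nat.mul_le_mul e1 h3
    nlinarith
  have e4 : n ^ 2 * (m.factorial * (32 * m ^ 2 + 8) + 1) ≤ n ^ 2 * (41 * n ^ 2) :=
    Nat.mul_le_mul_left _ e3
  have e5 : (2 * n + 1) ^ 9 ≤ (3 * n) ^ 9 := Nat.pow_le_pow_left (by omega) 9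
  have e6 : (3 * n) ^ 9 = 19683 * n ^ 9 := by rw [mul_pow]; norm_num
  have e7 : n ^ 2 * (41 * n ^ 2) = 41 * n ^ 4 := by ring
  have e8 : n ^ 4 ≤ n ^ 9 := Nat.pow_le_pow_right hn0 (by norm_num)
  have e9 : 2 ^ 100 * n ^ 9 ≤ n ^ 11 := by
    calc 2 ^ 100 * n ^ 9 ≤ n * n ^ 9 := Nat.mul_le_mul_right _ hn
      _ = n ^ 10 := by ring
      _ ≤ n ^ 11 := Nat.pow_le_pow_right hn0 (by norm_num)
  omega

theorem part_five {n : ℕ} (hn : 2 ^ 100 ≤ n) : OneSided n (n ^ 11)
    ((2 : ℝ) ^ (-((n : ℝ) * Real.log n / (4000 * Real.log (Real.log n))))) := by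
  have hn0 : (0 : ℝ) < n := by
    have : 0 < n := lt_of_lt_of_le (by norm_num) hn
    exact_mod_cast this
  set L := Real.log n with hL
  have hL69 : 69 ≤ L := by
    have h1 : Real.log ((2 : ℝ) ^ 100) ≤ L := by
      refine Real.log_le_log (by norm_num) ?_
      exact_mod_cast hn
    rw [Real.log_pow] at h1
    have h2 := Real.log_two_gt_d9
    push_cast at h1
    linarith
  set l := Real.log L with hl
  have hl4 : 4 * l ≤ L := by
    have h1 := Real.log_le_sub_one_of_pos (show 0 < L / 16 by linarith)
    rw [Real.log_div (by linarith) (by norm_num), show (16 : ℝ) = 2 ^ 4 by norm_num,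
      Real.log_pow] at h1
    have h2 := Real.log_two_lt_d9
    push_cast at h1
    linarith
  have hl1 : 1 ≤ l := by
    rw [hl, Real.le_log_iff_exp_le (by linarith)]
    have := Real.exp_one_lt_d9
    linarith
  have hl0 : 0 < l := by linarith
  set x := L / l with hx
  have hx4 : 4 ≤ x := by
    rw [hx, le_div_iff₀ hl0]
    exact hl4
  have hxL : x ≤ L := div_le_self (by linarith) hl1
  have hxl : x * l = L := by
    rw [hx]
    field_simp
  set m := ⌊x⌋₊ with hm
  have hmx : (m : ℝ) ≤ x := Nat.floor_le (by linarith)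
  have hmx1 : x < m + 1 := Nat.lt_floor_add_one x
  have hm0 : (0 : ℝ) < m := by linarith
  have hlogm : Real.log m ≤ l := Real.log_le_log hm0 (hmx.trans hxL)
  have key : ∀ k : ℕ, (k : ℝ) * l ≤ L → m ^ k ≤ n := by
    intro k hk
    have h1 : Real.log ((m : ℝ) ^ k) ≤ Real.log n := by
      rw [Real.log_pow]
      exact (mul_le_mul_of_nonneg_left hlogm (by positivity)).trans hk
    have h2 := (Real.log_le_log_iff (by positivity) hn0).1 h1
    exact_mod_cast h2
  obtain ⟨f, hf, h1, E, hE, h2⟩ := part_four hn (m := m)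
    (key m ((mul_le_mul_of_nonneg_right hmx hl0.le).trans hxl.le))
    (key 4 (by push_cast; exact hl4))
  refine ⟨f, hf, h1, E, hE.trans (mul_le_mul_of_nonneg_right
    (Real.rpow_le_rpow_of_exponent_le (by norm_num) (neg_le_neg ?_)) (by positivity)), h2⟩
  have h3 : (n : ℝ) * L / (4000 * l) = n * x / 4000 := by
    rw [hx]
    field_simp
  rw [h3]
  nlinarith

/-- **Worst-case isomorphism of small graphs is average-case isomorphism of large graphs with a tiny
failure density.** -/
theorem result :
    (∀ n m N s : ℕ, 2 ^ 100 ≤ n → m ^ 4 ≤ n → 101 * m + 2 ^ 15 ≤ N →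
      AverageCase N s ((2 : ℝ) ^ (-((m : ℝ) * N + 2))) →
      OneSided n (n ^ 2 * s + 500 * (2 * n + 1) ^ 9) ((2 : ℝ) ^ (-((m : ℝ) * n / 2000)))) ∧
    (∀ m N s : ℕ, 101 * m + 2 ^ 15 ≤ N → AverageCase N s ((2 : ℝ) ^ (-((m : ℝ) * N + 2))) →
      WorstCase m s) ∧
    (∀ δ : ℝ, 0 < δ → ((∃ c : ℕ, ∀ n : ℕ, WorstCase n (n ^ c + c)) ↔
      ∃ c : ℕ, ∀ n : ℕ, AverageCase n (n ^ c + c) ((2 : ℝ) ^ (-(n : ℝ) ^ (1 + δ))))) ∧
    ∀ n : ℕ, 2 ^ 100 ≤ n → OneSided n (n ^ 11)
      ((2 : ℝ) ^ (-((n : ℝ) * Real.log n / (4000 * Real.log (Real.log n))))) :=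
  ⟨fun _ _ _ _ hn hm hN h => part_one hn hm hN h, fun _ _ _ hN h => part_two hN le_rfl h,
    part_three, fun _ hn => part_five hn⟩

end Pool.Agent.Results.MP_128e7d_lc.WorstCaseAverageCase
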